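import Pool.Agent.Helper74.NW.Basic
import Pool.Agent.Helper60.NF.Coll

/-!
# W1 in the frame
-/

set_option autoImplicit false

namespace Pool.Agent.Helper60.NWF

open Pool.Agent.Helper74.NW Pool.Agent.Helper19.NF

variable {U D B : Type} [Fintype U] [Fintype D] [AddCommGroup B]

omit [Fintype U] in
theorem val_eq (g : D → Equiv.Perm U) (x0 : U → B) (I : B → D → B) (i : ℕ) :
    ∀ u, val g x0 I i u = Pool.Agent.Helper60.NF.val g x0 I i u := by
  induction i with
  | zero => exact fun _ => rfl
  | succ i ih =>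
    intro u
    rw [val_succ, Pool.Agent.Helper60.NF.val_succ]
    exact Finset.sum_congr rfl fun s _ => by rw [ih]

/-- W1 (helper60): few instances have two equal elements in the rows `0, ..., R`. -/
theorem card_not_CF [Fintype B] [Nonempty D] (g : D → Equiv.Perm U) (x0 : U → B)
    (h0 : Function.Injective x0) (R : ℕ) :
    Nat.card {I : B → D → B // ¬ CF g x0 R I} * Fintype.card B ≤
      ((R + 1) * Fintype.card U) ^ 2 * Nat.card (B → D → B) := by
  have h1 : ∀ I : B → D → B, ¬ CF g x0 R I ↔ ¬ Pool.Agent.Helper60.NF.CF g x0 (R + 1) I := by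
    intro I
    rw [not_iff_not]
    unfold CF Pool.Agent.Helper60.NF.CF
    simp only [val_eq, Nat.lt_succ_iff]
    exact ⟨fun h i hi j hj u v => h i j u v hi hj, fun h i j u v hi hj => h i hi j hj u v⟩
  rw [Nat.card_congr (Equiv.subtypeEquivRight h1)]
  exact Pool.Agent.Helper60.NF.cf_count g x0 h0 (R + 1)

end Pool.Agent.Helper60.NWF
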